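import Pool.Agent.Helper79.GS.St3

/-!
# Project GS (MP_c2d095_lc), module CRI: the matching criterion
-/

set_option autoImplicit false

namespace Pool.Agent.Helper64.GS

open Pool.Agent.Helper79.GS

private theorem dvd_sign (q x : ℤ) (k : ℕ) : q ∣ (-1) ^ k * x ↔ q ∣ x := by
  rcases neg_one_pow_eq_or ℤ k with h | h
  · rw [h, one_mul]
  · rw [h, neg_one_mul, dvd_neg]

theorem hCRI (hPAD : StPAD) (hDNZ : StDNZ) (hTRQ : StTRQ) : StCRI := by
  intro L Nb m E hE hm hN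
  rw [hPAD E Nb m (2 ^ L) hE hm hN, hDNZ L (padE E Nb m)]
  constructor
  · rintro ⟨ξ, h1, h2⟩
    refine ⟨ξ, h1, ?_⟩
    rw [hTRQ L (aM L (padE E Nb m) ξ), dvd_sign]
    exact h2
  · rintro ⟨ξ, h1, h2⟩
    refine ⟨ξ, h1, ?_⟩
    rw [hTRQ L (aM L (padE E Nb m) ξ), dvd_sign] at h2
    exact h2

end Pool.Agent.Helper64.GS
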