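import Pool.Agent.Helper79.GS.St6

/-!
# Project GS (MP_c2d095_lc), module ENC: reading the word of an instance
-/

set_option autoImplicit false

namespace Pool.Agent.Helper64.GS

open Pool.Agent.Helper79.GS Pool.Agent.Helper19.SK Pool.Agent.Helper73.DC Finset

private theorem lett_iff {α : Type} [Fintype α] (w : List α) (i : ℕ) (a : α) :
    lett w i = cd a + 1 ↔ w[i]? = some a := by
  unfold lett
  cases h : w[i]? with
  | none =>
    constructor
    · intro h1
      exact absurd h1 (Nat.succ_ne_zero _).symm
    · intro h1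
      exact absurd h1 (Option.some_ne_none a).symm
  | some b =>
    constructor
    · intro h1
      have h2 : cd b + 1 = cd a + 1 := h1
      have h3 : cd b = cd a := Nat.succ_injective h2
      have h4 := (Fintype.equivFin α).injective (Fin.ext h3)
      rw [h4]
    · intro h1
      rw [Option.some.inj h1]

section

variable {n : ℕ}

private theorem bword_length (P : Pos (Fin n × Fin n)) : (bword P).length = n * n := by
  unfold bword
  exact List.length_ofFn

private theorem bword_get (P : Pos (Fin n × Fin n)) (p : ℕ) (hp : p < n * n) :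
    (bword P)[p]? = some (ltr (P (finProdFinEquiv.symm ⟨p, hp⟩))) := by
  unfold bword
  rw [List.getElem?_ofFn, dif_pos hp]

private theorem flat_length (l : List (Pos (Fin n × Fin n))) :
    ((l.map bword).flatten).length = l.length * (n * n) := by
  induction l with
  | nil => simp
  | cons Q l ih =>
    rw [List.map_cons, List.flatten_cons, List.length_append, bword_length, ih, List.length_cons]
    ring

private theorem flat_get (l : List (Pos (Fin n × Fin n))) (j p : ℕ) (hj : j < l.length)
    (hp : p < n * n) :
    ((l.map bword).flatten)[j * (n * n) + p]? = some (ltr (l[j] (finProdFinEquiv.symm ⟨p, hp⟩))) := by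
  induction l generalizing j with
  | nil => exact absurd hj (Nat.not_lt_zero _)
  | cons Q l ih =>
    rw [List.map_cons, List.flatten_cons]
    cases j with
    | zero =>
      rw [Nat.zero_mul, Nat.zero_add, List.getElem?_append_left (by rw [bword_length]; exact hp),
        bword_get Q p hp]
      rfl
    | succ j =>
      have e : (j + 1) * (n * n) + p = (bword Q).length + (j * (n * n) + p) := by
        rw [bword_length]
        ring
      rw [e, List.getElem?_append_right (Nat.le_add_right _ _), Nat.add_sub_cancel_left]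
      have hj' : j < l.length := by
        rw [List.length_cons] at hj
        omega
      exact ih j hj'

private theorem ltr_ne (x : Option Bool) : ltr x ≠ 4 := by
  rcases x with _ | b
  · exact (by decide : (0 : Fin 5) ≠ 4)
  · cases b
    · exact (by decide : (2 : Fin 5) ≠ 4)
    · exact (by decide : (1 : Fin 5) ≠ 4)

private theorem flat_ne (l : List (Pos (Fin n × Fin n))) (x : ℕ) :
    ((l.map bword).flatten)[x]? ≠ some 4 := by
  intro h
  have h1 := List.mem_of_getElem? h
  rw [List.mem_flatten] at h1
  obtain ⟨b, hb, h2⟩ := h1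
  rw [List.mem_map] at hb
  obtain ⟨Q, -, rfl⟩ := hb
  unfold bword at h2
  rw [List.mem_ofFn] at h2
  obtain ⟨i, hi⟩ := h2
  exact ltr_ne _ hi

/-- the word, with the boards put together -/
private theorem enc_eq (m : ℕ) (c : Bool) (P : Pos (Fin n × Fin n)) (H : List (Pos (Fin n × Fin n))) :
    enc n m c P H = ltr (some c) :: (List.replicate n 3 ++ 4 :: ((((P :: H).map bword).flatten) ++
      4 :: List.replicate m 3)) := rfl

private theorem g0 (m : ℕ) (c : Bool) (P : Pos (Fin n × Fin n)) (H : List (Pos (Fin n × Fin n))) :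
    (enc n m c P H)[0]? = some (ltr (some c)) := rfl

private theorem g1 (m : ℕ) (c : Bool) (P : Pos (Fin n × Fin n)) (H : List (Pos (Fin n × Fin n)))
    (i : ℕ) (hi : i < n) : (enc n m c P H)[i + 1]? = some 3 := by
  rw [enc_eq, List.getElem?_cons_succ,
    List.getElem?_append_left (by rw [List.length_replicate]; exact hi), List.getElem?_replicate,
    if_pos hi]

private theorem gT (m : ℕ) (c : Bool) (P : Pos (Fin n × Fin n)) (H : List (Pos (Fin n × Fin n)))
    (y : ℕ) : (enc n m c P H)[n + 1 + y]? = (4 :: ((((P :: H).map bword).flatten) ++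
      4 :: List.replicate m 3))[y]? := by
  have e : n + 1 + y = (n + y) + 1 := by omega
  rw [enc_eq, e, List.getElem?_cons_succ,
    List.getElem?_append_right (by rw [List.length_replicate]; exact Nat.le_add_right _ _),
    List.length_replicate, Nat.add_sub_cancel_left]

private theorem g2 (m : ℕ) (c : Bool) (P : Pos (Fin n × Fin n)) (H : List (Pos (Fin n × Fin n))) :
    (enc n m c P H)[n + 1]? = some 4 := by
  have h := gT m c P H 0
  rw [Nat.add_zero] at h
  rw [h]
  rfl

private theorem g3 (m : ℕ) (c : Bool) (P : Pos (Fin n × Fin n)) (H : List (Pos (Fin n × Fin n)))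
    (x : ℕ) (hx : x < (H.length + 1) * (n * n)) :
    (enc n m c P H)[n + 2 + x]? = (((P :: H).map bword).flatten)[x]? := by
  have h := gT m c P H (x + 1)
  have e : n + 1 + (x + 1) = n + 2 + x := by omega
  rw [e, List.getElem?_cons_succ] at h
  rw [h, List.getElem?_append_left]
  rw [flat_length, List.length_cons]
  exact hx

private theorem g4 (m : ℕ) (c : Bool) (P : Pos (Fin n × Fin n)) (H : List (Pos (Fin n × Fin n))) :
    (enc n m c P H)[n + 2 + (H.length + 1) * (n * n)]? = some 4 := by
  have h := gT m c P H ((H.length + 1) * (n * n) + 1)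
  have e : n + 1 + ((H.length + 1) * (n * n) + 1) = n + 2 + (H.length + 1) * (n * n) := by omega
  have hl : (((P :: H).map bword).flatten).length = (H.length + 1) * (n * n) := by
    rw [flat_length, List.length_cons]
  rw [e, List.getElem?_cons_succ] at h
  rw [h, List.getElem?_append_right hl.le, hl, Nat.sub_self]
  rfl

private theorem g5 (m : ℕ) (c : Bool) (P : Pos (Fin n × Fin n)) (H : List (Pos (Fin n × Fin n))) :
    (enc n m c P H).length = n + 2 + (H.length + 1) * (n * n) + 1 + m := by
  rw [enc_eq, List.length_cons, List.length_append, List.length_replicate, List.length_cons,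
    List.length_append, List.length_cons, List.length_replicate, flat_length, List.length_cons]
  omega

private theorem pos1_enc (m : ℕ) (c : Bool) (P : Pos (Fin n × Fin n))
    (H : List (Pos (Fin n × Fin n))) : pos1 (enc n m c P H) = n + 1 := by
  unfold pos1
  refine (tL7 _ _).1 (n + 1) ?_ ?_ ?_
  · rw [g5]
    omega
  · exact (lett_iff _ _ _).2 (g2 m c P H)
  · intro i hi h
    have h1 := (lett_iff _ _ _).1 h
    rcases i with _ | i
    · rw [g0] at h1
      exact ltr_ne _ (Option.some.inj h1)
    · rw [g1 m c P H i (by omega)] at h1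
      exact (by decide : (3 : Fin 5) ≠ 4) (Option.some.inj h1)

private theorem nW_enc (m : ℕ) (c : Bool) (P : Pos (Fin n × Fin n))
    (H : List (Pos (Fin n × Fin n))) : nW (enc n m c P H) = n := by
  unfold nW
  rw [pos1_enc]
  rfl

private theorem pos2_enc (m : ℕ) (c : Bool) (P : Pos (Fin n × Fin n))
    (H : List (Pos (Fin n × Fin n))) :
    pos2 (enc n m c P H) = n + 2 + (H.length + 1) * (n * n) := by
  unfold pos2
  refine (tL7 _ _).1 (n + 2 + (H.length + 1) * (n * n)) ?_ ⟨?_, ?_⟩ ?_
  · rw [g5]
    omega
  · rw [pos1_enc]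
    omega
  · exact (lett_iff _ _ _).2 (g4 m c P H)
  · rintro i hi ⟨h0, h⟩
    rw [pos1_enc] at h0
    have h1 := (lett_iff _ _ _).1 h
    obtain ⟨x, rfl⟩ : ∃ x, i = n + 2 + x := ⟨i - (n + 2), by omega⟩
    rw [g3 m c P H x (by omega)] at h1
    exact flat_ne _ _ h1

private theorem cnt_enc (m : ℕ) (c : Bool) (P : Pos (Fin n × Fin n))
    (H : List (Pos (Fin n × Fin n))) (j p : ℕ) (hj : j < (P :: H).length) (hp : p < n * n) :
    cntW (enc n m c P H) j p = dgt ((P :: H)[j] (finProdFinEquiv.symm ⟨p, hp⟩)) := by
  have hj' : j < H.length + 1 := hj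
  have hx : j * (n * n) + p < (H.length + 1) * (n * n) := by
    calc j * (n * n) + p < j * (n * n) + n * n := by omega
      _ = (j + 1) * (n * n) := by ring
      _ ≤ (H.length + 1) * (n * n) := Nat.mul_le_mul_right _ (by omega)
  have h1 : (enc n m c P H)[n + 2 + j * (n * n) + p]? =
      some (ltr ((P :: H)[j] (finProdFinEquiv.symm ⟨p, hp⟩))) := by
    have e : n + 2 + j * (n * n) + p = n + 2 + (j * (n * n) + p) := by omega
    rw [e, g3 m c P H _ hx, flat_get _ j p hj hp]
  have k1 := lett_iff (enc n m c P H) (n + 2 + j * (n * n) + p) (1 : Fin 5)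
  have k2 := lett_iff (enc n m c P H) (n + 2 + j * (n * n) + p) (2 : Fin 5)
  rw [h1] at k1 k2
  unfold cntW
  rw [nW_enc]
  generalize (P :: H)[j] (finProdFinEquiv.symm ⟨p, hp⟩) = x at k1 k2 ⊢
  rcases x with _ | b
  · have n1 : ¬ lett (enc n m c P H) (n + 2 + j * (n * n) + p) = cd (1 : Fin 5) + 1 := fun h =>
      absurd (Option.some.inj (k1.1 h)) (by decide)
    have n2 : ¬ lett (enc n m c P H) (n + 2 + j * (n * n) + p) = cd (2 : Fin 5) + 1 := fun h =>
      absurd (Option.some.inj (k2.1 h)) (by decide)
    rw [if_neg n1, if_neg n2]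
    rfl
  · cases b
    · have n1 : ¬ lett (enc n m c P H) (n + 2 + j * (n * n) + p) = cd (1 : Fin 5) + 1 := fun h =>
        absurd (Option.some.inj (k1.1 h)) (by decide)
      rw [if_neg n1, if_pos (k2.2 rfl)]
      rfl
    · rw [if_pos (k1.2 rfl)]
      rfl

end

theorem hENC (hCOD : StCOD) : StENC := by
  intro n m c P H hn
  have hK : 1 ≤ n * n := Nat.mul_pos hn hn
  refine ⟨nW_enc m c P H, ?_, ?_, ?_, ?_⟩
  · unfold mW
    rw [pos2_enc, g5]
    omega
  · unfold plW bn
    have k1 := lett_iff (enc n m c P H) 0 (1 : Fin 5)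
    rw [g0] at k1
    cases c
    · have n1 : ¬ lett (enc n m false P H) 0 = cd (1 : Fin 5) + 1 := fun h =>
        absurd (Option.some.inj (k1.1 h)) (by decide)
      rw [if_neg n1]
      rfl
    · rw [if_pos (k1.2 rfl)]
      rfl
  · intro N hN
    unfold b0W codeB
    rw [nW_enc, Finset.sum_range]
    refine Finset.sum_congr rfl fun i _ => ?_
    have e1 : pw N 3 i.val = 3 ^ i.val := by
      unfold pw
      refine min_eq_left ?_
      have : 3 ^ i.val ≤ 3 ^ (n * n) := Nat.pow_le_pow_right (by norm_num) i.isLt.le
      omega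
    have e2 := cnt_enc m c P H 0 i.val (by simp) i.isLt
    rw [e1, e2]
    congr 1
  · intro Q
    unfold H0W
    rw [nW_enc, pos2_enc]
    constructor
    · rintro ⟨j, -, h1, h2, h3⟩
      have hjh : j < (P :: H).length := by
        rw [List.length_cons]
        by_contra hcon
        have h4 : H.length + 1 + 1 ≤ j + 1 := by omega
        have h5 := Nat.mul_le_mul_right (n * n) h4
        have h6 : (H.length + 1 + 1) * (n * n) = (H.length + 1) * (n * n) + n * n := by ring
        omega
      have h7 : codeB Q = codeB ((P :: H)[j]) := by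
        refine (hCOD n).2.2.2 _ _ ((hCOD n).1 Q).1 fun i => ?_
        rw [h3 i.val i.isLt]
        exact cnt_enc m c P H j i.val hjh i.isLt
      have h8 := (hCOD n).2.1 _ _ h7
      obtain ⟨j', rfl⟩ : ∃ j', j = j' + 1 := ⟨j - 1, by omega⟩
      rw [h8]
      exact List.getElem_mem _
    · intro hQ
      obtain ⟨i, hi, rfl⟩ := List.mem_iff_getElem.1 hQ
      refine ⟨i + 1, ?_, by omega, ?_, ?_⟩
      · rw [g5]
        have : H.length + 1 ≤ (H.length + 1) * (n * n) := Nat.le_mul_of_pos_right _ hK
        omega
      · have : (i + 1 + 1) * (n * n) ≤ (H.length + 1) * (n * n) :=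
          Nat.mul_le_mul_right _ (by omega)
        omega
      · intro p hp
        rw [cnt_enc m c P H (i + 1) p (by rw [List.length_cons]; omega) hp]
        exact ((hCOD n).1 (H[i])).2 ⟨p, hp⟩

end Pool.Agent.Helper64.GS
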